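import Pool.Agent.MP_ee8c61_ag.N3L.Final

/-! From models over the charts of the blow-up to the orders of the poles for an ideal. -/

set_option autoImplicit false

namespace Pool.Agent.MP_ee8c61_ag.N3

open Pool.Agent.MP_ee8c61_ag.M3 Set
open Pool.Agent.MP_96693b_ag.RS (Loc LocOf)
open M3L (aw le_aw inv_mem_aw mem_aw aw_val)
open N3Zt (zr con_zero)

noncomputable section

variable {N r : ℕ}

open AlgebraicGeometry in
/-- The theorem. -/
def MainI2 : Prop := ∀ (r : ℕ) (F : Fin r → MvPolynomial (Fin 3) ℂ) (b : Polynomial ℂ)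
  (Y : Scheme.{0}) (π : Y ⟶ H95.Aff 3) (J : Type) [Fintype J] (E : J → Set Y) (a k : J → ℕ)
  (χ : Set Y → ℤ), H10.IsBS F b → H95.IsLogRes (Ideal.span (range F)) π E a k → H95.IsChi π χ →
  ∃ p : Polynomial ℂ, algebraMap (Polynomial ℂ) (RatFunc ℂ) b * H95.zeta E a k χ =
    algebraMap (Polynomial ℂ) (RatFunc ℂ) p

/-- The rational functions whose product with `b` is a polynomial. -/
def den (b : Polynomial ℂ) : AddSubgroup (RatFunc ℂ) where
  carrier := {z | ∃ p : Polynomial ℂ, algebraMap (Polynomial ℂ) (RatFunc ℂ) b * z =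
    algebraMap (Polynomial ℂ) (RatFunc ℂ) p}
  zero_mem' := ⟨0, by simp⟩
  add_mem' := fun ⟨p, hp⟩ ⟨q, hq⟩ => ⟨p + q, by rw [mul_add, hp, hq, map_add]⟩
  neg_mem' := fun ⟨p, hp⟩ => ⟨-p, by rw [mul_neg, hp, map_neg]⟩

theorem zr_add {M : M3.Mod N} {χ : H36.Chi} (hχ : ChiOK χ (KK N)) (hc : ∀ I, ConP (M.str I))
    {A : Subalgebra ℂ (KK N)} (hA : ∀ b, A ≤ M.S.A b) {S : AddSubgroup (RatFunc ℂ)}
    (hS : ∀ u ∈ A, u ≠ 0 → zr M χ {P | P.ev u ≠ 0} ∈ S) {κ : Type} (t : κ → KK N)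
    (ht : ∀ k, t k ∈ A ∧ t k ≠ 0) (T : Finset κ) :
    ∀ u ∈ A, u ≠ 0 → zr M χ ({P | P.ev u ≠ 0} ∩ {P | ∀ k ∈ T, P.ev (t k) = 0}) ∈ S := by
  classical
  have hC := M3L.scon (KK N)
  have rg : ∀ I, ∀ P ∈ M.str I, A ≤ P.O := fun I P ⟨⟨b, hb⟩, _⟩ => (hA b).trans hb.le
  have cn : ∀ I (T : Finset κ), ∀ u ∈ A,
      ConP (M.str I ∩ ({P | P.ev u ≠ 0} ∩ {P | ∀ k ∈ T, P.ev (t k) = 0})) := fun I T u hu => by
    have h1 := con_zero hC (hc I) (fun k : T => t k) fun P hP k => rg I P hP (ht k).1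
    have h2 := hC.diff _ _ h1 (con_zero hC (hc I) (fun _ : Unit => u) fun P hP _ => rg I P hP hu)
    refine Eq.subst (motive := ConP) (Set.ext fun P => ?_) h2
    simp only [mem_sdiff, mem_inter_iff, mem_ofPred_eq, Subtype.forall, forall_const]
    tauto
  induction T using Finset.induction_on with
  | empty => simpa using hS
  | insert k T _ ih =>
    intro u hu h0
    have e : zr M χ ({P | P.ev u ≠ 0} ∩ {P | ∀ k ∈ T, P.ev (t k) = 0}) =
        zr M χ ({P | P.ev u ≠ 0} ∩ {P | ∀ i ∈ insert k T, P.ev (t i) = 0}) +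
        zr M χ ({P | P.ev (u * t k) ≠ 0} ∩ {P | ∀ k ∈ T, P.ev (t k) = 0}) := by
      rw [zr, zr, zr, ← Finset.sum_add_distrib]
      refine Finset.sum_congr rfl fun I _ => ?_
      have ev : ∀ P ∈ M.str I, P.ev (u * t k) = P.ev u * P.ev (t k) := fun P hP =>
        P.ev_mul _ (rg I P hP hu) _ (rg I P hP (ht k).1)
      rw [← add_mul, ← Int.cast_add, ← hχ.add _ _ (cn I _ u hu) (cn I _ _ (mul_mem hu (ht k).1))
        (disjoint_left.2 fun P h1 h2 => h2.2.1 (by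
          rw [ev P h1.1, h1.2.2 k (Finset.mem_insert_self _ _), mul_zero]))]
      congr 3
      ext P
      refine ⟨fun h => ?_, fun h => h.elim (fun h => ⟨h.1, h.2.1, fun i hi =>
        h.2.2 i (Finset.mem_insert_of_mem hi)⟩) fun h => ⟨h.1, fun z => h.2.1 (by
          rw [ev P h.1, z, zero_mul]), h.2.2⟩⟩
      by_cases hk : P.ev (t k) = 0
      · exact Or.inl ⟨h.1, h.2.1, fun i hi => (Finset.mem_insert.1 hi).elim (fun e => e ▸ hk)
          (h.2.2 i)⟩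
      · exact Or.inr ⟨h.1, fun z => mul_ne_zero h.2.1 hk ((ev P h.1).symm.trans z), h.2.2⟩
    rw [← sub_eq_iff_eq_add.2 e]
    exact sub_mem (ih u hu h0) (ih _ (mul_mem hu (ht k).1) (mul_ne_zero h0 (ht k).2))

theorem mainI2_of (R : ∀ B : Base, @Po B 3 → Polynomial ℂ → Mod 3 → Prop) (hB : SBase)
    (hS : SBSI)
    (hW : ∀ (r : ℕ) (F : Fin r → M3.Po 3) (b : Polynomial ℂ) (j : Fin r) (B : Base),
      H10.IsBS F b → F j ≠ 0 → Over B (aw (A0 F j) 1) → ∃ W : Mod 3, W.OK (pp 3 (F j)) ∧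
        ∀ (u : KK 3) (hu : ∀ c, u ∈ W.S.A c) (u0 : u ≠ 0) (B' : Base), u ∈ A0 F j →
          Over B' (aw (A0 F j) u) →
          R B' (@pp B' 3 (F j)) b (B1.res W 0 u (hc0 hu) u0 (M3.ip 3 (F j))))
    (hM : ∀ (B : Base) (f : Po 3) (b : Polynomial ℂ) (β : Fin 3 → H59.PX 3 (KK 3))
      (Q : H59.PX 3 (KK 3)) (M : Mod 3) (χ : H36.Chi), R B f b M → BSd f b β Q → M.OK f →
      IsEu χ → ∃ p : Polynomial ℂ, algebraMap (Polynomial ℂ) (RatFunc ℂ) b * M.zeta χ =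
        algebraMap (Polynomial ℂ) (RatFunc ℂ) p) : MainI2 := by
  classical
  intro r F b Y π J _ E a k χ hb hY hχ
  have hX := M3L.ofChi M3L.scon
  obtain ⟨χ₀, h0, hz⟩ := N3Zt.sdat M3L.scon hX F Y π J E a k χ hY hχ
  have ex : ∀ (j : Fin r) (u : KK 3), ∃ B, Over B (aw (A0 F j) u) := fun j u =>
    hB _ aw_fg fun p => le_aw (pol_mem p)
  choose B hO using ex
  have ov : ∀ j V, @Ov (B j 1) 3 V ↔ ∀ g ∈ A0 F j, g ∈ V := fun j V => by
    rw [(hO j 1).2, aw_val (one_mem _) one_ne_zero, inv_one, and_iff_left (one_mem V)]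
  choose W hW hR using fun i : {j // F j ≠ 0} => hW r F b i (B i 1) hb i.2 (hO i 1)
  have hA : ∀ (i : {j // F j ≠ 0}) b, A0 F i ≤ (W i).S.A b := fun i b g hg =>
    @Mod.OK.pol (B i 1) 3 _ _ (hW i) b ⟨g, (@mem_Rb (B i 1) 3 g).2 fun V hV => (ov i V).1 hV g hg⟩
  have Fm : N3Zt.Fam F Subtype.val fun i => (W i).old :=
    ⟨fun i => @M3L.ok0 3 _ (B i 1) _ (hW i), fun i => @Mod.OK.pos (B i 1) 3 _ _ (hW i),
      fun i => @Mod.OK.ord (B i 1) 3 _ _ (hW i), fun i b j => hA i b (rat_mem j),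
      fun i V h1 h2 => @Mod.OK.cov (B i 1) 3 _ _ (hW i) V ((ov i V).2 (A0_le
        (B := ⟨V.toSubring.toSubsemiring, fun c => (M3.ip 3).commutes c ▸ h1 _⟩) h1 h2)),
      fun j hj => ⟨⟨j, hj⟩, rfl⟩, fun i => i.2⟩
  rw [hz _ Subtype.val _ (fun i => (i.1 : ℕ)) Fm (Fin.val_injective.comp Subtype.val_injective)]
  refine (show _ ∈ den b from sum_mem fun i _ => ?_)
  have key := zr_add (hX χ₀ _ h0.1) (N3Zt.con_str (M3L.scon _) (Fm.ok i) (Fm.mo i)) (hA i)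
    (S := den b) ?_
    (fun k : {k : {j // F j ≠ 0} // (k.1 : ℕ) < i.1} => M3.ip 3 (F k.1.1) / M3.ip 3 (F i.1))
    (fun k => ⟨rat_mem _, div_ne_zero (M3B1.ip_ne k.1.2) (M3B1.ip_ne i.2)⟩) Finset.univ 1
    (one_mem _) one_ne_zero
  · simpa [Loc.ev_one, N3Zt.Zs] using key
  intro u hu u0
  let _ := B i 1
  have eo := M3E.eout_raw B1.sb1raw
  have Bs := eo.bas 3 _ _ (hW i)
  have Nb := eo.nb 3 _ _ (hW i)
  have hu' : ∀ b, u ∈ (W i).S.A b := fun b => hA i b hu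
  have ok := B1.ok_res (B i 1) (B i u) (hc := hc0 hu') (u0 := u0) (f := @pp (B i u) 3 (F i))
    (hW i) Bs Nb rfl ((hO i u).gd i.2 hu u0) fun V => by
      rw [(hO i u).2, aw_val hu u0, ← ov]
      refine and_congr_right fun hV => ⟨fun h b _ => ?_, fun h => ?_⟩
      · rw [mon_zero, mul_one]
        exact ⟨u0, (ov i V).1 hV u hu, h⟩
      · obtain ⟨b, hb⟩ := (hW i).cov V hV
        have := (h b hb).2.2
        rwa [mon_zero, mul_one] at this
  rw [← zeta_res hu' u0 _ (B1.okr_self (hW i) Bs Nb).2 (hX χ₀ _ h0.1)]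
  obtain ⟨β, Q, hbs⟩ := hS r F b i u (B i u) hb i.2 hu u0 (hO i u)
  exact hM (B i u) _ b β Q _ χ₀ (hR i u hu' u0 (B i u) hu (hO i u)) hbs ok h0

end

end Pool.Agent.MP_ee8c61_ag.N3
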