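import Pool.Agent.MP_ee8c61_ag.R3L.Glue
import Pool.Agent.MP_ee8c61_ag.H95T.Final
import Pool.Agent.MP_ee8c61_ag.H4.Main
import Pool.Agent.MP_ee8c61_ag.H95.QAll
import Pool.Agent.MP_ee8c61_ag.H95.PFin
import Pool.Agent.MP_ee8c61_ag.H95.PLoc
import Pool.Agent.MP_ee8c61_ag.H95.PGlob
import Pool.Agent.MP_5d9b3c_ag.H21.ResA

/-! The orders of the poles for ideals in at most three variables. -/

set_option autoImplicit false

namespace Pool.Agent.MP_ee8c61_ag.R3L

section Lin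

open MvPolynomial

/-- The ideal is a product of ideals generated by polynomials of degree at most one. -/
def LinP {N : ℕ} (I : Ideal (MvPolynomial (Fin N) ℂ)) : Prop :=
  ∃ (m : ℕ) (V : Fin m → Set (MvPolynomial (Fin N) ℂ)),
    (∀ j, ∀ p ∈ V j, p.totalDegree ≤ 1) ∧ I = ∏ j, Ideal.span (V j)

theorem linP_span {N : ℕ} {S : Set (MvPolynomial (Fin N) ℂ)} (h : ∀ p ∈ S, p.totalDegree ≤ 1) :
    LinP (Ideal.span S) := ⟨1, fun _ => S, fun _ => h, by simp⟩

theorem LinP.mul {N : ℕ} {I : Ideal (MvPolynomial (Fin N) ℂ)} (h : LinP I)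
    {p : MvPolynomial (Fin N) ℂ} (hp : p.totalDegree ≤ 1) : LinP (Ideal.span {p} * I) := by
  obtain ⟨m, V, h1, rfl⟩ := h
  refine ⟨m + 1, Fin.cons {p} V, fun j => Fin.cases ?_ (fun j => h1 j) j, by
    simp [Fin.prod_univ_succ]⟩
  rintro _ rfl
  exact hp

theorem linP_one (I : Ideal (MvPolynomial (Fin 1) ℂ)) : LinP I := by
  have key : ∀ (a : ℂ) (s : Multiset ℂ), LinP (Ideal.span {(uniqueAlgEquiv ℂ (Fin 1)).symm
      (Polynomial.C a * (s.map (Polynomial.X - Polynomial.C ·)).prod)}) := fun a s => by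
    induction s using Multiset.induction_on with
    | empty =>
      refine linP_span ?_
      rintro _ rfl
      simp
    | cons c s ih =>
      rw [Multiset.map_cons, Multiset.prod_cons, mul_left_comm, map_mul,
        ← Ideal.span_singleton_mul_span_singleton]
      refine ih.mul ?_
      simpa using (totalDegree_sub (X (0 : Fin 1)) (C c)).trans (by simp)
  have := IsPrincipalIdealRing.of_surjective (uniqueAlgEquiv ℂ (Fin 1)).symm.toRingEquiv.toRingHom
    (uniqueAlgEquiv ℂ (Fin 1)).symm.surjective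
  obtain ⟨g, rfl⟩ := (IsPrincipalIdealRing.principal I).principal
  obtain ⟨p, rfl⟩ := (uniqueAlgEquiv ℂ (Fin 1)).symm.surjective g
  rw [(IsAlgClosed.splits p).eq_prod_roots]
  exact key _ _

theorem linP_zero (I : Ideal (MvPolynomial (Fin 0) ℂ)) : LinP I := by
  rw [← I.span_eq]
  exact linP_span fun p _ => by rw [eq_C_of_isEmpty p, totalDegree_C]; exact zero_le_one

end Lin

open AlgebraicGeometry H95

/-- The statement in `N` variables. -/
def MainN (N : ℕ) : Prop := ∀ (r : ℕ) (f : Fin r → MvPolynomial (Fin N) ℂ) (b : Polynomial ℂ)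
  (Y : Scheme.{0}) (π : Y ⟶ Aff N) (J : Type) [Fintype J] (E : J → Set Y) (a k : J → ℕ)
  (χ : Set Y → ℤ), (∃ j, f j ≠ 0) → H10.IsBS f b → IsLogRes (Ideal.span (Set.range f)) π E a k →
  IsChi π χ → ∃ Q : Polynomial ℂ, algebraMap (Polynomial ℂ) (RatFunc ℂ) b * zeta E a k χ =
    algebraMap (Polynomial ℂ) (RatFunc ℂ) Q

theorem main_lin {N : ℕ} (h : ∀ I : Ideal (MvPolynomial (Fin N) ℂ), LinP I) : MainN N := by
  intro r f b Y π J _ E a k χ _ hb hY hχ
  obtain ⟨m, V, hV, e⟩ := h (Ideal.span (Set.range f))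
  exact H95T.final_of H95T.shz H95T.srt H95T.crows.z V hV f e b hb Y π J E a k hY χ hχ

theorem main_two : MainN 2 := by
  intro r f b Y π J _ E a k χ hf hb hY hχ
  obtain ⟨χ', h1, h2, e⟩ := zeta_eq hY hχ
  obtain ⟨T, Zp, H, a', c0, c, hT, hH, hZ⟩ :=
    pglob pfin ploc MP_5d9b3c_ag.H21.resA χ' h1 h2 r f hf
  rw [e _ hZ]
  refine H4.poly_of_val fun s => ?_
  choose! v hv using fun h hh => H4.val_curve hb (hH h hh).1 (hH h hh).2.1 (hH h hh).2.2 s
  choose! w hw using fun P hP => H4.val_point hb (hT P hP) s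
  refine ⟨_, ((((H4.ValAt.poly b).mul (H4.ValAt.int c0)).add (H4.ValAt.sum H fun h hh =>
    (H4.ValAt.int (c h)).mul (hv h hh))).add (H4.ValAt.sum T hw)).congr ?_ rfl⟩
  simp only [mul_add, Finset.mul_sum, div_eq_mul_inv, mul_left_comm]

theorem upto3 (h : N3.MainI2) (N : ℕ) (hN : N ≤ 3) : MainN N := by
  obtain rfl | rfl | rfl | rfl : N = 0 ∨ N = 1 ∨ N = 2 ∨ N = 3 := by omega
  · exact main_lin linP_zero
  · exact main_lin linP_one
  · exact main_two
  · exact fun r f b Y π J _ E a k χ _ => h r f b Y π J E a k χ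

end Pool.Agent.MP_ee8c61_ag.R3L
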